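import Pool.Agent.Helper84.OB.Stmts

/-!
# Row PR: a non-modular pair of cyclic flats gives a minimal one
-/

set_option autoImplicit false

universe u

open Set Pool.Agent.Helper84.BT Pool.Agent.Helper84.OB
open scoped Matroid

namespace Pool.Agent.Helper24.OB

theorem PR : ST_PR.{u} := by
  intro α _ M A B hA hB hAB
  let d : Set α × Set α → ℕ := fun p => rk M p.1 + rk M p.2 - (rk M (p.1 ∪ p.2) + rk M (p.1 ∩ p.2))
  let S : Set (Set α × Set α) := {p | IsCyclicFlat M p.1 ∧ IsCyclicFlat M p.2 ∧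
    rk M (p.1 ∪ p.2) + rk M (p.1 ∩ p.2) < rk M p.1 + rk M p.2}
  have hS : S.Finite := Set.toFinite S
  obtain ⟨p0, hp0, hmin0⟩ := Set.exists_min_image S d hS ⟨(A, B), hA, hB, hAB⟩
  let S' : Set (Set α × Set α) := {p | p ∈ S ∧ d p = d p0}
  have hS' : S'.Finite := Set.toFinite S'
  obtain ⟨p, hp, hmin⟩ := Set.exists_min_image S' (fun p => p.1.ncard + p.2.ncard) hS'
    ⟨p0, hp0, rfl⟩
  obtain ⟨⟨h1, h2, h3⟩, h4⟩ := hp
  refine ⟨p.1, p.2, h1, h2, h3, fun A B hA hB hAB => ?_, fun A B hA hB hAB => ?_⟩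
  · have := hmin0 (A, B) ⟨hA, hB, hAB⟩
    rw [← h4] at this
    simp only [d] at this
    omega
  · refine hmin (A, B) ⟨⟨hA, hB, ?_⟩, ?_⟩
    · show rk M (A ∪ B) + rk M (A ∩ B) < rk M A + rk M B
      omega
    · rw [← h4]
      show rk M A + rk M B - (rk M (A ∪ B) + rk M (A ∩ B)) =
        rk M p.1 + rk M p.2 - (rk M (p.1 ∪ p.2) + rk M (p.1 ∩ p.2))
      omega

end Pool.Agent.Helper24.OB
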